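import Pool.Agent.Y803.GR.ZZ
import Pool.Agent.Y803.GR.SpnC

/-!
MP_6a4325_al: property (Z) in characteristic `p` and sections which are `p`-groups.

Idea.  Let the `p`-group `Q = S/T` be a section of `G`, let `L` be an irreducible `F[Q]`-module on
which `Q` acts non-trivially.  There is an irreducible `F[G]`-module `N` containing `L`.  If `N` is
finite-dimensional over the centre `Z` of its endomorphism ring, then so is `Z L`, on which `Q`
acts `Z`-linearly; hence `Z L` has a composition series with trivial factors, and a nontrivial
irreducible module `L` cannot occur in it.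
-/

set_option autoImplicit false

namespace Pool.Agent.Results.MP_6a4325_al.PSections

open Pool.Agent.Y803.GR Pool.Agent.Y803.Spinal

universe u v w w'

/-- Let `F` be a field of characteristic `p > 0` and let `G` be a group such that every irreducible
`F[G]`-module `M` is finite-dimensional over the centre of its endomorphism ring (property (Z)).
Let `Q` be a `p`-group which is a section of `G`. Then the augmentation ideal of `F[Q]` lies in the
Jacobson radical, and no section of `Q` is isomorphic to a spinal group `GG e` over a `q`-ary tree,
`q` prime. Conversely, if `G` is a `p`-group such that the augmentation ideal of `F[G]` lies in the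
Jacobson radical, then `(G, F)` has property (Z). -/
theorem result (F : Type u) [Field F] (p : ℕ) [Fact p.Prime] [CharP F p] (G : Type v) [Group G] :
    ((∀ (M : Type (max u v)) [AddCommGroup M] [Module (MonoidAlgebra F G) M],
        IsSimpleModule (MonoidAlgebra F G) M →
        Module.Finite (Subring.center (Module.End (MonoidAlgebra F G) M)) M) →
      ∀ (Q : Type w) [Group Q], IsPGroup p Q → ∀ (S : Subgroup G) (f : S →* Q),
        Function.Surjective f →
        Ideal.span (Set.range (fun g : Q => MonoidAlgebra.of F Q g - 1)) ≤
          Ideal.jacobson (⊥ : Ideal (MonoidAlgebra F Q)) ∧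
        ∀ (q : ℕ) [Fact q.Prime] (V : Type w') [AddCommGroup V] [Module (ZMod q) V] [Finite V]
          (e : ℕ → ZMod q → (V →ₗ[ZMod q] ZMod q)), (∀ n, ∃ x, x ≠ 0 ∧ e n x ≠ 0) →
          ∀ (R : Subgroup Q) (h : R →* GG e), ¬ Function.Surjective h) ∧
    (Ideal.span (Set.range (fun g : G => MonoidAlgebra.of F G g - 1)) ≤
        Ideal.jacobson (⊥ : Ideal (MonoidAlgebra F G)) →
      ∀ (M : Type (max u v)) [AddCommGroup M] [Module (MonoidAlgebra F G) M],
        IsSimpleModule (MonoidAlgebra F G) M →
        Module.Finite (Subring.center (Module.End (MonoidAlgebra F G) M)) M) := by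
  refine ⟨fun hZ Q _ hQ S f hf => ?_, fun h => ?_⟩
  · have h1 : AugLeJac F Q := Pool.Agent.Y803.ZZ.augLeJac_of_propZ hQ hZ S f hf
    refine ⟨?_, ?_⟩
    · rw [Ideal.span_le]
      rintro _ ⟨g, rfl⟩
      apply h1
      rw [map_sub, map_one, MonoidAlgebra.of_apply, aug_single, sub_self]
    · intro q _ V _ _ _ e he R h hh
      exact not_augLeJac F e he (augLeJac_section ⟨R, h, hh⟩ h1)
  · exact Pool.Agent.Y803.ZZ.propZ_of_augLeJac (fun x hx => h (mem_span_of_aug x hx))

end Pool.Agent.Results.MP_6a4325_al.PSections
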