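import Pool.Agent.Y803.GR.ZX

/-!
MP_6a4325_al: property (Z) in characteristic `p`, normal `p`-subgroups of sections and wreath
products.

Idea.  Let `Q = S/T` be a section of `G`, `A` a normal `p`-subgroup of `Q` and `L` an irreducible
`F[Q]`-module. There is an irreducible `F[G]`-module `N` containing `L`.  If `N` is finite-dimensional
over the centre `Z` of its endomorphism ring, then `A` acts `Z`-linearly and, by Kolchin's theorem,
unipotently on the finite-dimensional space `Z L`; since `A` is normal, it acts trivially on `L`.  So
`(n - 1) r` lies in the radical of `F[Q]` for `n ∈ A`.  For `Q = C_p ≀ R` and `A` the base group one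
gets a unit `1 - x` whose inverse would have infinite support if `R` had an infinite finitely
generated subgroup (an infinite geodesic in the Cayley graph, starting file H202Kap).
-/

set_option autoImplicit false

namespace Pool.Agent.Results.MP_6a4325_al.WreathSections

open Pool.Agent.Helper826.Kap

universe v w

/-- Let `F` be a field of characteristic `p > 0` and let `G` be a group such that every irreducible
`F[G]`-module `M` is finite-dimensional over the centre of its endomorphism ring (property (Z)).
(1) Let `Q` be a section of `G` and `A` a normal `p`-subgroup of `Q`. Then `(n - 1) r` lies in the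
Jacobson radical of `F[Q]` for all `n ∈ A` and `r ∈ F[Q]`, i.e. `A` acts trivially on all
irreducible `F[Q]`-modules. (2) If the restricted wreath product `C_p ≀ R` is a section of `G`, then
`R` is locally finite. -/
theorem result (F : Type) [Field F] (p : ℕ) [Fact p.Prime] [CharP F p] (G : Type v) [Group G]
    (hZ : ∀ (M : Type v) [AddCommGroup M] [Module (MonoidAlgebra F G) M],
      IsSimpleModule (MonoidAlgebra F G) M →
      Module.Finite (Subring.center (Module.End (MonoidAlgebra F G) M)) M) :
    (∀ (Q : Type w) [Group Q] (S : Subgroup G) (f : S →* Q), Function.Surjective f →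
      ∀ (A : Subgroup Q) [A.Normal], (∀ n ∈ A, ∃ j, n ^ (p ^ j) = 1) →
      ∀ n ∈ A, ∀ r : MonoidAlgebra F Q, (MonoidAlgebra.of F Q n - 1) * r ∈
        Ideal.jacobson (⊥ : Ideal (MonoidAlgebra F Q))) ∧
    (∀ (R : Type) [Group R] (S : Subgroup G) (f : S →* Wr (Multiplicative (ZMod p)) R),
      Function.Surjective f → ∀ T : Finset R, Finite (Subgroup.closure (T : Set R))) :=
  ⟨fun _ _ S f hf A _ hA n hn r => Pool.Agent.Y803.ZW.normal_of_propZ A hA hZ S f hf n hn r,
    fun R _ S f hf T => Pool.Agent.Y803.ZW.locFin_of_propZ F p hZ R S f hf T⟩

end Pool.Agent.Results.MP_6a4325_al.WreathSections
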